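import Pool.Agent.H85.KS2.Targets

/-!
Row RS of board ks2_modules (MP_ff41bc_an).
-/

set_option autoImplicit false

open Pool.Agent.H98.KS Pool.Agent.H85.KS2

namespace Pool.Agent.H15.KS2

theorem rs_cont : Continuous ee := by
  unfold ee
  fun_prop

theorem rs_orth (m l : ℕ) :
    ∫ θ in (0 : ℝ)..1, ee (-(θ * l)) * ee (θ * m) = if m = l then (1 : ℂ) else 0 := by
  have h0 : ∀ θ : ℝ, ee (-(θ * l)) * ee (θ * m) =
      Complex.exp ((2 * Real.pi * ((m : ℂ) - l) * Complex.I) * θ) := by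
    intro θ
    unfold ee
    rw [← Complex.exp_add]
    congr 1
    push_cast
    ring
  simp only [h0]
  by_cases h : m = l
  · subst h
    simp
  · rw [if_neg h]
    have hne : (2 * Real.pi * ((m : ℂ) - l) * Complex.I) ≠ 0 := by
      have h1 : ((m : ℂ) - l) ≠ 0 := by
        rw [sub_ne_zero]
        exact_mod_cast h
      have h2 : (Real.pi : ℂ) ≠ 0 := by exact_mod_cast Real.pi_ne_zero
      simp [h1, h2, Complex.I_ne_zero]
    rw [integral_exp_mul_complex hne]
    have h3 : Complex.exp ((2 * Real.pi * ((m : ℂ) - l) * Complex.I) * (1 : ℝ)) = 1 := by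
      have h4 : (2 * Real.pi * ((m : ℂ) - l) * Complex.I) * (1 : ℝ) =
          (((m : ℤ) - (l : ℤ) : ℤ) : ℂ) * (2 * Real.pi * Complex.I) := by
        push_cast
        ring
      rw [h4]
      exact Complex.exp_int_mul_two_pi_mul_I _
    rw [h3]
    simp

theorem rs_norm (x : ℝ) : ‖ee x‖ = 1 := by
  unfold ee
  have h : 2 * (Real.pi : ℂ) * x * Complex.I = ((2 * Real.pi * x : ℝ) : ℂ) * Complex.I := by
    push_cast
    ring
  rw [h]
  exact Complex.norm_exp_ofReal_mul_I _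

theorem rs_GS_cont (k : ℕ) {d : ℕ} (F : Finset (Fin d → ℤ)) (c : Fin d → Bool) (x : Fin d → ℤ) :
    Continuous fun θ => GS k F c θ x := by
  unfold GS
  exact continuous_finsetSum _ fun y _ => rs_cont.comp (by fun_prop)

/-- Minkowski's inequality -/
theorem rs_mink {α : Type} (S : Finset α) (g : ℝ → α → ℝ)
    (hg : ∀ x ∈ S, Continuous fun θ => g θ x) :
    ∑ x ∈ S, (∫ θ in (0 : ℝ)..1, g θ x) ^ 2 ≤
      (∫ θ in (0 : ℝ)..1, Real.sqrt (∑ x ∈ S, g θ x ^ 2)) ^ 2 := by
  obtain ⟨H, hH⟩ : ∃ H : α → ℝ, H = fun x => ∫ θ in (0 : ℝ)..1, g θ x := ⟨_, rfl⟩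
  obtain ⟨A, hA⟩ : ∃ A : ℝ, A = ∑ x ∈ S, H x ^ 2 := ⟨_, rfl⟩
  obtain ⟨B, hB⟩ : ∃ B : ℝ, B = ∫ θ in (0 : ℝ)..1, Real.sqrt (∑ x ∈ S, g θ x ^ 2) := ⟨_, rfl⟩
  have hA0 : 0 ≤ A := by
    rw [hA]
    exact Finset.sum_nonneg fun x _ => sq_nonneg _
  have hc : Continuous fun θ => Real.sqrt (∑ x ∈ S, g θ x ^ 2) :=
    (continuous_finsetSum _ fun x hx => (hg x hx).pow 2).sqrt
  have hB0 : 0 ≤ B := by
    rw [hB]
    exact intervalIntegral.integral_nonneg (by norm_num) fun _ _ => Real.sqrt_nonneg _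
  have h1 : A = ∫ θ in (0 : ℝ)..1, ∑ x ∈ S, H x * g θ x := by
    rw [intervalIntegral.integral_finsetSum]
    · rw [hA]
      refine Finset.sum_congr rfl fun x _ => ?_
      rw [intervalIntegral.integral_const_mul, sq]
      congr 1
      rw [hH]
    · intro x hx
      exact (continuous_const.mul (hg x hx)).intervalIntegrable _ _
  have h2 : ∫ θ in (0 : ℝ)..1, ∑ x ∈ S, H x * g θ x ≤
      ∫ θ in (0 : ℝ)..1, √A * Real.sqrt (∑ x ∈ S, g θ x ^ 2) := by
    refine intervalIntegral.integral_mono_on (by norm_num) ?_ ?_ ?_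
    · exact (continuous_finsetSum _ fun x hx =>
        continuous_const.mul (hg x hx)).intervalIntegrable _ _
    · exact (continuous_const.mul hc).intervalIntegrable _ _
    · intro θ _
      refine (Real.sum_mul_le_sqrt_mul_sqrt _ _ _).trans ?_
      rw [← hA]
  rw [intervalIntegral.integral_const_mul, ← hB, ← h1] at h2
  have hgoal : ∑ x ∈ S, (∫ θ in (0 : ℝ)..1, g θ x) ^ 2 = A := by
    rw [hA, hH]
  rw [hgoal, ← hB]
  rcases hA0.eq_or_lt with h | h
  · rw [← h]
    positivity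
  · have h3 : 0 < √A := Real.sqrt_pos.2 h
    have h4 : √A * √A = A := Real.mul_self_sqrt hA0
    have h5 : √A ≤ B := by
      by_contra hlt
      push Not at hlt
      have := mul_lt_mul_of_pos_left hlt h3
      linarith
    calc A = √A ^ 2 := by rw [sq, h4]
      _ ≤ B ^ 2 := pow_le_pow_left₀ h3.le h5 2

theorem rs_pt (k d : ℕ) (F : Finset (Fin d → ℤ)) (x : Fin d → ℤ) (l : ℕ) :
    (cnt k F x l : ℝ) ≤ ∑ c : Fin d → Bool, ∫ θ in (0 : ℝ)..1, ‖GS k F c θ x‖ := by
  classical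
  -- one pattern
  have h1 : ∀ c : Fin d → Bool,
      (((F.filter (fun y => ∀ i, y i ≤ x i ↔ c i = true)).filter
        (fun y => pw k (x - y) = l)).card : ℝ) ≤ ∫ θ in (0 : ℝ)..1, ‖GS k F c θ x‖ := by
    intro c
    have h2 : ((((F.filter (fun y => ∀ i, y i ≤ x i ↔ c i = true)).filter
        (fun y => pw k (x - y) = l)).card : ℝ) : ℂ) =
        ∫ θ in (0 : ℝ)..1, ee (-(θ * l)) * GS k F c θ x := by
      unfold GS
      simp only [Finset.mul_sum]
      rw [intervalIntegral.integral_finsetSum]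
      · simp only [rs_orth]
        rw [← Finset.sum_filter, Finset.sum_const, nsmul_eq_mul, mul_one]
        push_cast
        rfl
      · intro y _
        refine Continuous.intervalIntegrable ?_ _ _
        exact (rs_cont.comp (by fun_prop)).mul (rs_cont.comp (by fun_prop))
    have h3 : ‖∫ θ in (0 : ℝ)..1, ee (-(θ * l)) * GS k F c θ x‖ ≤
        ∫ θ in (0 : ℝ)..1, ‖GS k F c θ x‖ := by
      refine (intervalIntegral.norm_integral_le_integral_norm (by norm_num)).trans ?_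
      refine le_of_eq ?_
      congr 1
      ext θ
      rw [norm_mul, rs_norm, one_mul]
    rw [← h2, Complex.norm_real, Real.norm_of_nonneg (Nat.cast_nonneg _)] at h3
    exact h3
  refine le_trans ?_ (Finset.sum_le_sum fun c _ => h1 c)
  have h4 : cnt k F x l ≤ ∑ c : Fin d → Bool,
      ((F.filter (fun y => ∀ i, y i ≤ x i ↔ c i = true)).filter
        (fun y => pw k (x - y) = l)).card := by
    unfold cnt
    have hsub : F.filter (fun y => pw k (x - y) = l) ⊆
        (Finset.univ : Finset (Fin d → Bool)).biUnion fun c =>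
          (F.filter (fun y => ∀ i, y i ≤ x i ↔ c i = true)).filter
            (fun y => pw k (x - y) = l) := by
      intro y hy
      rw [Finset.mem_filter] at hy
      rw [Finset.mem_biUnion]
      refine ⟨fun i => decide (y i ≤ x i), Finset.mem_univ _, ?_⟩
      rw [Finset.mem_filter, Finset.mem_filter]
      exact ⟨⟨hy.1, fun i => by simp⟩, hy.2⟩
    exact (Finset.card_le_card hsub).trans Finset.card_biUnion_le
  exact_mod_cast h4

theorem ks2_RS : T_RS := by
  intro k d F X T hT hX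
  classical
  have hpt : ∀ x ∈ X, T ^ 2 ≤ 4 ^ d * ∑ c : Fin d → Bool,
      (∫ θ in (0 : ℝ)..1, ‖GS k F c θ x‖) ^ 2 := by
    intro x hx
    obtain ⟨l, hl⟩ := hX x hx
    have h1 := hl.trans (rs_pt k d F x l)
    have h2 : T ^ 2 ≤ (∑ c : Fin d → Bool, ∫ θ in (0 : ℝ)..1, ‖GS k F c θ x‖) ^ 2 :=
      pow_le_pow_left₀ hT h1 2
    have h3 := sq_sum_le_card_mul_sum_sq (s := (Finset.univ : Finset (Fin d → Bool)))
      (f := fun c => ∫ θ in (0 : ℝ)..1, ‖GS k F c θ x‖)
    have h4 : ((Finset.univ : Finset (Fin d → Bool)).card : ℝ) ≤ 4 ^ d := by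
      rw [Finset.card_univ, Fintype.card_fun, Fintype.card_bool, Fintype.card_fin]
      push_cast
      exact pow_le_pow_left₀ (by norm_num) (by norm_num) d
    have h5 : 0 ≤ ∑ c : Fin d → Bool, (∫ θ in (0 : ℝ)..1, ‖GS k F c θ x‖) ^ 2 :=
      Finset.sum_nonneg fun _ _ => sq_nonneg _
    exact h2.trans (h3.trans (mul_le_mul_of_nonneg_right h4 h5))
  calc T ^ 2 * X.card = ∑ x ∈ X, T ^ 2 := by
        rw [Finset.sum_const, nsmul_eq_mul, mul_comm]
    _ ≤ ∑ x ∈ X, 4 ^ d * ∑ c : Fin d → Bool, (∫ θ in (0 : ℝ)..1, ‖GS k F c θ x‖) ^ 2 :=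
        Finset.sum_le_sum hpt
    _ = 4 ^ d * ∑ c : Fin d → Bool, ∑ x ∈ X, (∫ θ in (0 : ℝ)..1, ‖GS k F c θ x‖) ^ 2 := by
        rw [← Finset.mul_sum, Finset.sum_comm]
    _ ≤ _ := by
        refine mul_le_mul_of_nonneg_left ?_ (by positivity)
        refine Finset.sum_le_sum fun c _ => ?_
        exact rs_mink X (fun θ x => ‖GS k F c θ x‖) fun x _ => (rs_GS_cont k F c x).norm

end Pool.Agent.H15.KS2
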