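import Pool.Agent.H85.KS2.Targets

/-!
Row RW of board ks2_modules (MP_ff41bc_an).
-/

set_option autoImplicit false

open Pool.Agent.H98.KS Pool.Agent.H85.KS2

namespace Pool.Agent.H15.KS2

theorem ee_add' (a b : ℝ) : ee (a + b) = ee a * ee b := by
  unfold ee
  rw [← Complex.exp_add]
  congr 1
  push_cast
  ring

theorem ee_conj' (a : ℝ) : (starRingEnd ℂ) (ee a) = ee (-a) := by
  unfold ee
  rw [← Complex.exp_conj]
  congr 1
  simp only [map_mul, Complex.conj_ofReal, Complex.conj_I, map_ofNat]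
  push_cast
  ring

theorem ee_zero'' : ee 0 = 1 := by
  unfold ee
  simp

theorem ee_sum' {ι : Type} (s : Finset ι) (f : ι → ℝ) : ee (∑ i ∈ s, f i) = ∏ i ∈ s, ee (f i) := by
  classical
  induction s using Finset.induction_on with
  | empty => simp [ee_zero'']
  | insert a s ha ih => rw [Finset.sum_insert ha, Finset.prod_insert ha, ee_add', ih]

theorem ks2_RW (hRW1 : T_RW1) : T_RW := by
  intro k d L F X c θ hL hF hX
  classical
  -- restrict to the cell
  have h1 : ∑ x ∈ X, ‖GS k F c θ x‖ ^ 2 ≤ ∑ x ∈ cell d L, ‖GS k F c θ x‖ ^ 2 :=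
    Finset.sum_le_sum_of_subset_of_nonneg hX fun _ _ _ => sq_nonneg _
  refine h1.trans ?_
  -- the condition
  obtain ⟨cd, hcd⟩ : ∃ cd : (Fin d → ℤ) → (Fin d → ℤ) → Prop,
      cd = fun x y => ∀ i, y i ≤ x i ↔ c i = true := ⟨_, rfl⟩
  obtain ⟨w, hw⟩ : ∃ w : (Fin d → ℤ) → (Fin d → ℤ) → ℂ,
      w = fun x y => if cd x y then ee (θ * (pw k (x - y) : ℝ)) else 0 := ⟨_, rfl⟩
  have hGS : ∀ x, GS k F c θ x = ∑ y ∈ F, w x y := by
    intro x
    unfold GS
    rw [Finset.sum_filter]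
    refine Finset.sum_congr rfl fun y _ => ?_
    have hcc : cd x y ↔ (∀ i, y i ≤ x i ↔ c i = true) := by rw [hcd]
    by_cases h : ∀ i, y i ≤ x i ↔ c i = true
    · rw [if_pos h, hw]
      exact (if_pos (hcc.2 h)).symm
    · rw [if_neg h, hw]
      exact (if_neg fun h' => h (hcc.1 h')).symm
  have hsq : ∀ x, ((‖GS k F c θ x‖ ^ 2 : ℝ) : ℂ) =
      ∑ y ∈ F, ∑ y' ∈ F, w x y * (starRingEnd ℂ) (w x y') := by
    intro x
    rw [← Complex.normSq_eq_norm_sq, ← Complex.mul_conj, hGS, map_sum, Finset.sum_mul_sum]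
  have h2 : ((∑ x ∈ cell d L, ‖GS k F c θ x‖ ^ 2 : ℝ) : ℂ) =
      ∑ y ∈ F, ∑ y' ∈ F, ∑ x ∈ cell d L, w x y * (starRingEnd ℂ) (w x y') := by
    rw [Complex.ofReal_sum, Finset.sum_congr rfl fun x _ => hsq x, Finset.sum_comm]
    refine Finset.sum_congr rfl fun y _ => ?_
    rw [Finset.sum_comm]
  have h3 : ∑ x ∈ cell d L, ‖GS k F c θ x‖ ^ 2 =
      ‖((∑ x ∈ cell d L, ‖GS k F c θ x‖ ^ 2 : ℝ) : ℂ)‖ := by
    rw [Complex.norm_real, Real.norm_of_nonneg (Finset.sum_nonneg fun _ _ => sq_nonneg _)]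
  rw [h3, h2]
  refine (norm_sum_le _ _).trans (Finset.sum_le_sum fun y hy => ?_)
  refine (norm_sum_le _ _).trans (Finset.sum_le_sum fun y' hy' => ?_)
  have hyb : ∀ i, -(2 * (L : ℤ)) ≤ y i ∧ y i ≤ 3 * L := by
    intro i
    have := hF hy
    unfold bx at this
    exact Finset.mem_Icc.1 (Fintype.mem_piFinset.1 this i)
  have hyb' : ∀ i, -(2 * (L : ℤ)) ≤ y' i ∧ y' i ≤ 3 * L := by
    intro i
    have := hF hy'
    unfold bx at this
    exact Finset.mem_Icc.1 (Fintype.mem_piFinset.1 this i)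
  have h4 : ∑ x ∈ cell d L, w x y * (starRingEnd ℂ) (w x y') =
      ∏ i, ∑ t ∈ (Finset.Ico (0 : ℤ) L).filter
        (fun t => (y i ≤ t ↔ c i = true) ∧ (y' i ≤ t ↔ c i = true)),
        ee (θ * ((((t - y i).natAbs ^ k : ℕ) : ℝ) - (((t - y' i).natAbs ^ k : ℕ) : ℝ))) := by
    rw [Finset.prod_univ_sum]
    have hset : (Fintype.piFinset fun i => (Finset.Ico (0 : ℤ) L).filter
        (fun t => (y i ≤ t ↔ c i = true) ∧ (y' i ≤ t ↔ c i = true))) =
        (cell d L).filter (fun x => cd x y ∧ cd x y') := by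
      ext x
      unfold cell
      simp only [Fintype.mem_piFinset, Finset.mem_filter, hcd]
      constructor
      · intro h
        exact ⟨fun i => (h i).1, fun i => (h i).2.1, fun i => (h i).2.2⟩
      · intro h i
        exact ⟨h.1 i, h.2.1 i, h.2.2 i⟩
    rw [hset, Finset.sum_filter]
    refine Finset.sum_congr rfl fun x _ => ?_
    rw [hw]
    simp only []
    by_cases ha : cd x y
    · by_cases hb : cd x y'
      · rw [if_pos ha, if_pos hb, if_pos ⟨ha, hb⟩, ee_conj', ← ee_add', ← ee_sum']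
        congr 1
        unfold pw
        push_cast
        rw [← Finset.mul_sum, Finset.sum_sub_distrib]
        simp only [Pi.sub_apply]
        ring
      · rw [if_neg hb, if_neg (fun h : cd x y ∧ cd x y' => hb h.2), map_zero, mul_zero]
    · rw [if_neg ha, if_neg (fun h : cd x y ∧ cd x y' => ha h.1), zero_mul]
  rw [h4, norm_prod]
  refine Finset.prod_le_prod (fun i _ => norm_nonneg _) fun i _ => ?_
  exact hRW1 k L θ (c i) (y i) (y' i) hL (hyb i).1 (hyb i).2 (hyb' i).1 (hyb' i).2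

end Pool.Agent.H15.KS2
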