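import Pool.Agent.H85.KS2.Targets

/-!
Row RW1 of board ks2_modules (MP_ff41bc_an).
-/

set_option autoImplicit false

open Pool.Agent.H98.KS Pool.Agent.H85.KS2

namespace Pool.Agent.H15.KS2

theorem ee_zero' : ee 0 = 1 := by
  unfold ee
  simp

theorem natAbs_pow_cast (k : ℕ) (z : ℤ) (hz : 0 ≤ z) :
    (((z.natAbs ^ k : ℕ) : ℝ)) = (((z ^ k : ℤ)) : ℝ) := by
  obtain ⟨n, rfl⟩ := Int.eq_ofNat_of_zero_le hz
  simp

theorem ks2_RW1 (hV1 : T_V1) : T_RW1 := by
  intro k L θ b y y' hL hy1 hy2 hy1' hy2'
  have hL' : (1 : ℤ) ≤ (L : ℤ) := by exact_mod_cast hL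
  by_cases h0 : sg b * (y' - y) = 0
  · have hyy : y' = y := by
      rcases mul_eq_zero.1 h0 with h | h
      · exfalso
        revert h
        unfold sg
        split_ifs <;> norm_num
      · omega
    subst hyy
    unfold UU
    rw [if_pos h0]
    refine (norm_sum_le _ _).trans ?_
    have h1 : ∀ x ∈ (Finset.Ico (0 : ℤ) L).filter
        (fun x => (y' ≤ x ↔ b = true) ∧ (y' ≤ x ↔ b = true)),
        ‖ee (θ * ((((x - y').natAbs ^ k : ℕ) : ℝ) - (((x - y').natAbs ^ k : ℕ) : ℝ)))‖ = 1 := by
      intro x _
      rw [sub_self, mul_zero, ee_zero']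
      simp
    rw [Finset.sum_congr rfl h1, Finset.sum_const, nsmul_eq_mul, mul_one]
    have h2 := Finset.card_filter_le (Finset.Ico (0 : ℤ) L)
      (fun x => (y' ≤ x ↔ b = true) ∧ (y' ≤ x ↔ b = true))
    have h3 : (Finset.Ico (0 : ℤ) L).card = L := by simp
    rw [h3] at h2
    exact_mod_cast h2
  · unfold UU
    rw [if_neg h0]
    cases b with
    | true =>
      have hsg : sg true * (y' - y) = y' - y := by
        unfold sg
        simp
      rw [hsg]
      have key : ∑ x ∈ (Finset.Ico (0 : ℤ) L).filter
          (fun x => (y ≤ x ↔ true = true) ∧ (y' ≤ x ↔ true = true)),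
          ee (θ * ((((x - y).natAbs ^ k : ℕ) : ℝ) - (((x - y').natAbs ^ k : ℕ) : ℝ))) =
          ∑ u ∈ Finset.Ico (max 0 (max y y') - y') ((L : ℤ) - y'),
            ee (θ * (dl k (y' - y) u : ℝ)) := by
        refine Finset.sum_nbij' (fun x => x - y') (fun u => u + y') ?_ ?_ ?_ ?_ ?_
        · intro x hx
          simp only [Finset.mem_filter, Finset.mem_Ico, iff_true] at hx
          simp only [Finset.mem_Ico]
          omega
        · intro u hu
          simp only [Finset.mem_Ico] at hu
          simp only [Finset.mem_filter, Finset.mem_Ico, iff_true]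
          omega
        · intro x _
          ring
        · intro u _
          ring
        · intro x hx
          simp only [Finset.mem_filter, Finset.mem_Ico, iff_true] at hx
          rw [natAbs_pow_cast k (x - y) (by omega), natAbs_pow_cast k (x - y') (by omega)]
          unfold dl
          congr 2
          push_cast
          ring
      rw [key]
      refine hV1 k L θ (y' - y) _ _ hL ?_ ?_
      · omega
      · omega
    | false =>
      have hsg : sg false * (y' - y) = y - y' := by
        unfold sg
        simp
      rw [hsg]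
      have key : ∑ x ∈ (Finset.Ico (0 : ℤ) L).filter
          (fun x => (y ≤ x ↔ false = true) ∧ (y' ≤ x ↔ false = true)),
          ee (θ * ((((x - y).natAbs ^ k : ℕ) : ℝ) - (((x - y').natAbs ^ k : ℕ) : ℝ))) =
          ∑ u ∈ Finset.Ico (y' - min (L : ℤ) (min y y') + 1) (min y' y' + 1),
            ee (θ * (dl k (y - y') u : ℝ)) := by
        refine Finset.sum_nbij' (fun x => y' - x) (fun u => y' - u) ?_ ?_ ?_ ?_ ?_
        · intro x hx
          simp only [Finset.mem_filter, Finset.mem_Ico, Bool.false_eq_true, iff_false] at hx
          simp only [Finset.mem_Ico]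
          omega
        · intro u hu
          simp only [Finset.mem_Ico] at hu
          simp only [Finset.mem_filter, Finset.mem_Ico, Bool.false_eq_true, iff_false]
          omega
        · intro x _
          ring
        · intro u _
          ring
        · intro x hx
          simp only [Finset.mem_filter, Finset.mem_Ico, Bool.false_eq_true, iff_false] at hx
          have e1 : (x - y).natAbs = (y - x).natAbs := by omega
          have e2 : (x - y').natAbs = (y' - x).natAbs := by omega
          rw [e1, e2, natAbs_pow_cast k (y - x) (by omega), natAbs_pow_cast k (y' - x) (by omega)]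
          unfold dl
          congr 2
          push_cast
          ring
      rw [key]
      refine hV1 k L θ (y - y') _ _ hL ?_ ?_
      · omega
      · omega

end Pool.Agent.H15.KS2
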